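import Pool.Agent.Helper56_KK.GSL2

/-!
# G_GSL: the general supply lemma
-/

set_option autoImplicit false

namespace Pool.Agent.KK.E.H56

variable {V : Type} [Fintype V] [DecidableEq V] {L : ℕ}

/-- the positions of the block in the window -/
def Iw (L m a k : ℕ) : Finset (Fin L) :=
  Finset.univ.filter fun i : Fin L => a ≤ (i : ℕ) + m ∧ (i : ℕ) + m < a + k

theorem Iw_filter {c uL uR : List Bool} {a k : ℕ} (b : Bool) :
    (Finset.univ.filter fun i : Fin L => (some i, b) ∈ Tw L c uL uR a k) =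
      (Iw L uL.length a k).filter fun i : Fin L => c.getD i false = b := by
  ext i
  unfold Iw
  rw [Finset.mem_filter, Finset.mem_filter, Finset.mem_filter, mem_Tw_some]
  simp

theorem win_count (f : Fin L → V) {c uL uR : List Bool} {a k : ℕ} (hc : c.length = L) (b : Bool) :
    (((uL ++ c ++ uR).drop a).take k).count b =
      (((fw uL ++ vx (List.ofFn f) ++ fw uR).drop a).take k).count (Sum.inr b) +
        ((Iw L uL.length a k).filter fun i : Fin L => c.getD i false = b).card := by
  rw [← TT_snd hc, ← TT_sl f c uL uR, ← List.map_drop, ← List.map_take, ← List.map_drop,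
    ← List.map_take, ← Iw_filter (uR := uR)]
  exact count_eq f b _ (Tw_nodup c uL uR a k)

theorem win_fx (f : Fin L → V) (c : List Bool) {uL uR : List Bool} {a k : ℕ} :
    (fx (((fw uL ++ vx (List.ofFn f) ++ fw uR).drop a).take k)).toFinset =
      (Iw L uL.length a k).image f := by
  rw [← TT_sl f c uL uR, ← List.map_drop, ← List.map_take]
  ext v
  rw [fx_eq, Finset.mem_image]
  constructor
  · rintro ⟨i, b, hi, hv⟩
    have h1 := (mem_Tw_some (c := c) (uL := uL) (uR := uR)).1 hi
    exact ⟨i, by unfold Iw; rw [Finset.mem_filter]; exact ⟨Finset.mem_univ _, h1.1⟩, hv⟩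
  · rintro ⟨i, hi, hv⟩
    unfold Iw at hi
    rw [Finset.mem_filter] at hi
    exact ⟨i, _, mem_Tw_some.2 ⟨hi.2, rfl⟩, hv⟩

theorem core_count (f : Fin L → V) (c : List Bool) {uL uR : List Bool} {a k : ℕ}
    (h1 : uL.length ≤ a) (h2 : a + k ≤ uL.length + L) (b : Bool) :
    (((fw uL ++ vx (List.ofFn f) ++ fw uR).drop a).take k).count (Sum.inr b) = 0 := by
  rw [← TT_sl f c uL uR, ← List.map_drop, ← List.map_take]
  have h3 : ∀ T : List (Option (Fin L) × Bool), (∀ b, (none, b) ∉ T) →
      (T.map (sl f)).count (Sum.inr b) = 0 := by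
    intro T hT
    induction T with
    | nil => rfl
    | cons x T ih =>
      obtain ⟨o, b'⟩ := x
      cases o with
      | none => exact absurd (List.mem_cons_self) (hT b')
      | some i =>
        rw [List.map_cons, List.count_cons, ih fun b h => hT b (List.mem_cons_of_mem _ h)]
        have h4 : (sl f (some i, b') == Sum.inr b) = false := rfl
        rw [h4]
        simp
  refine h3 _ fun b hb => ?_
  rcases mem_Tw_none hb with h | h <;> omega

theorem dens_false {ι : Type} [Fintype ι] (c : ι → Finset V) : dens c (fun _ => False) = 0 := by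
  unfold dens
  simp

theorem D_edge (e01 : StmtE01) {H : Finset (Finset V)} {X M : Finset V} (hX : X.Nonempty)
    (hX' : (Xᶜ).Nonempty) (hM : M ∈ H) : D H X M 0 0 = 1 := by
  have hne : ∀ i, (lets X 0 0 i).Nonempty := by
    intro i
    rcases i with i | i
    · exact hX
    · exact hX'
  have h1 := e01 V (Fin 0 ⊕ Fin 0) (lets X 0 0) hne
  have h2 := h1.2.2.2.1 (fun f => M ∪ Finset.univ.image f ∈ H)
  have h3 := h1.2.1 (fun f => ¬ (M ∪ Finset.univ.image f ∈ H)) (fun _ => False) (by
    intro f _ h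
    apply h
    have h4 : M ∪ Finset.univ.image f = M := by
      rw [Finset.univ_eq_empty, Finset.image_empty, Finset.union_empty]
    rw [h4]
    exact hM)
  rw [dens_false] at h3
  have h4 := (h1.1 (fun f => ¬ (M ∪ Finset.univ.image f ∈ H))).1
  unfold D
  linarith

theorem OKs_of (g01 : StmtG01) {H : Finset (Finset V)} {X : Finset V} (hX : X.Nonempty)
    (hX' : (Xᶜ).Nonempty) {ε : ℝ} {s : List (Slot V)} (h : ¬ D H X (fx s).toFinset
      (s.count (Sum.inr true)) (s.count (Sum.inr false)) < 1 - ε) : OKs H X ε s := by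
  unfold OKs
  refine le_trans (g01 V H X s hX hX') ?_
  refine mul_le_mul_of_nonneg_right ?_ (by positivity)
  linarith

/-- the bad event of one window -/
theorem win_dens (e01 : StmtE01) (e02 : StmtE02) (e17 : StmtE17) (g01 : StmtG01)
    (g02 : StmtG02) {H : Finset (Finset V)} {X : Finset V} {p q B : ℕ} {δ ε e₀ : ℝ}
    {η : ℕ → ℝ} {c uL uR : List Bool} {o : Fin L → Option V} {P : (Fin L → V) → Prop}
    (hA : Amb H X p q B δ) (hX : X.Nonempty) (hX' : (Xᶜ).Nonempty) (hε : 0 < ε) (he₀ : 0 ≤ e₀)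
    (hc : c.length = L) (huL : uL.length = p + q + 1) (huR : uR.length = p + q + 1)
    (inj : ∀ i i' v, o i = some v → o i' = some v → i = i') {a : ℕ}
    (ha : a + (p + q + 2) ≤ L + 2 * (p + q + 1))
    (hw : (p + q + 1 ≤ a ∧ a + (p + q + 2) ≤ L + (p + q + 1) ∧
          ∀ f : Fin L → V, (∀ i, f i ∈ bx X (fun i : Fin L => c.getD i false) o i) → P f →
            (Finset.univ.filter fun i : Fin L => a ≤ (i : ℕ) + (p + q + 1) ∧
              (i : ℕ) + (p + q + 1) < a + (p + q + 2)).image f ∈ H) ∨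
        ((wt (((uL ++ c ++ uR).drop a).take (p + q + 2)) = p ∨
            wt (((uL ++ c ++ uR).drop a).take (p + q + 2)) = p + 2) ∧
          (∀ (i : Fin L) (v : V), a ≤ (i : ℕ) + (p + q + 1) →
            (i : ℕ) + (p + q + 1) < a + (p + q + 2) → o i = some v →
            (v ∈ X ↔ c.getD i false = true)) ∧
          ∀ M' : Finset V, (∀ v, v ∈ M' ↔ ∃ i : Fin L, a ≤ (i : ℕ) + (p + q + 1) ∧
            (i : ℕ) + (p + q + 1) < a + (p + q + 2) ∧ o i = some v) →
            ¬ Non H X p q η M' ∧ (M' ∩ X).card ≤ p + 1 ∧ (M' \ X).card ≤ q + 1 ∧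
              η M'.card ≤ e₀)) :
    ε * dens (bx X (fun i : Fin L => c.getD i false) o) (fun f => P f ∧ ¬ OKs H X ε
      (((fw uL ++ vx (List.ofFn f) ++ fw uR).drop a).take (p + q + 2))) ≤ 3 * δ + e₀ := by
  classical
  have hδ := hA.pos
  have hE := e01 V (Fin L) (bx X (fun i : Fin L => c.getD i false) o) (bx_ne hX hX' _ o)
  rcases hw with ⟨hw1, hw2, hw3⟩ | ⟨hw1, hw2, hw3⟩
  · have h1 := hE.2.1 (fun f => P f ∧ ¬ OKs H X ε
      (((fw uL ++ vx (List.ofFn f) ++ fw uR).drop a).take (p + q + 2))) (fun _ => False) (by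
        rintro f hf ⟨hP, hbad⟩
        apply hbad
        refine OKs_of g01 hX hX' ?_
        rw [core_count f c (by omega) (by omega), core_count f c (by omega) (by omega),
          win_fx f c]
        have h2 := hw3 f hf hP
        rw [D_edge e01 hX hX' (by unfold Iw; rw [huL]; exact h2)]
        linarith)
    rw [dens_false] at h1
    have h2 : ε * dens (bx X (fun i : Fin L => c.getD i false) o) (fun f => P f ∧ ¬ OKs H X ε
      (((fw uL ++ vx (List.ofFn f) ++ fw uR).drop a).take (p + q + 2))) ≤ ε * 0 :=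
      mul_le_mul_of_nonneg_left h1 hε.le
    linarith
  · obtain ⟨M', hM'⟩ : ∃ M' : Finset V, M' = Finset.univ.filter fun v =>
      ∃ i ∈ Iw L (p + q + 1) a (p + q + 2), o i = some v := ⟨_, rfl⟩
    have hM1 : ∀ v, v ∈ M' ↔ ∃ i ∈ Iw L (p + q + 1) a (p + q + 2), o i = some v := by
      intro v
      rw [hM', Finset.mem_filter]
      simp
    have hM2 : ∀ v, v ∈ M' ↔ ∃ i : Fin L, a ≤ (i : ℕ) + (p + q + 1) ∧
            (i : ℕ) + (p + q + 1) < a + (p + q + 2) ∧ o i = some v := by
      intro v
      rw [hM1]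
      constructor
      · rintro ⟨i, hi, h⟩
        unfold Iw at hi
        rw [Finset.mem_filter] at hi
        exact ⟨i, hi.2.1, hi.2.2, h⟩
      · rintro ⟨i, h1, h2, h⟩
        exact ⟨i, by unfold Iw; rw [Finset.mem_filter]; exact ⟨Finset.mem_univ _, h1, h2⟩, h⟩
    obtain ⟨hN1, hN2, hN3, hN4⟩ := hw3 M' hM2
    have hlet : ∀ i ∈ Iw L (p + q + 1) a (p + q + 2), ∀ v, o i = some v →
        (v ∈ X ↔ c.getD i false = true) := by
      intro i hi v hv
      unfold Iw at hi
      rw [Finset.mem_filter] at hi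
      exact hw2 i v hi.2.1 hi.2.2 hv
    obtain ⟨w, hwd⟩ : ∃ w, w = ((uL ++ c ++ uR).drop a).take (p + q + 2) := ⟨_, rfl⟩
    have hwl : w.length = p + q + 2 := by
      rw [hwd, List.length_take, List.length_drop, List.length_append, List.length_append, huL, huR,
        hc]
      omega
    have hcnt : w.count true + w.count false = p + q + 2 := by
      rw [← hwl]
      have h1 := List.count_not_add_count w false
      exact h1
    -- the fixed vertices have letters
    have hfix : ∀ b, ((Iw L (p + q + 1) a (p + q + 2)).filter fun i : Fin L => c.getD i false = b).card =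
        ((Iw L (p + q + 1) a (p + q + 2)).filter fun i : Fin L =>
          c.getD i false = b ∧ o i = none).card +
        (M'.filter fun v => decide (v ∈ X) = b).card := by
      intro b
      rw [card_split (l := fun i : Fin L => c.getD i false) (o := o) b]
      rw [card_fixed (l := fun i : Fin L => c.getD i false) hM1 inj hlet b]
    have hXc : M' ∩ X = M'.filter fun v => decide (v ∈ X) = true := by
      ext v
      rw [Finset.mem_inter, Finset.mem_filter, decide_eq_true_iff]
    have hXd : M' \ X = M'.filter fun v => decide (v ∈ X) = false := by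
      ext v
      rw [Finset.mem_sdiff, Finset.mem_filter, decide_eq_false_iff_not]
    have hfT := hfix true
    have hfF := hfix false
    rw [← hXc] at hfT
    rw [← hXd] at hfF
    obtain ⟨f₀⟩ : Nonempty (Fin L → V) := by
      obtain ⟨v, _⟩ := hX
      exact ⟨fun _ => v⟩
    have hcT := win_count f₀ (uL := uL) (uR := uR) (a := a) (k := p + q + 2) hc true
    have hcF := win_count f₀ (uL := uL) (uR := uR) (a := a) (k := p + q + 2) hc false
    rw [← hwd, huL] at hcT hcF
    obtain ⟨a', ha'⟩ : ∃ a', a' = w.count true -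
      ((Iw L (p + q + 1) a (p + q + 2)).filter fun i : Fin L => c.getD i false = true).card := ⟨_, rfl⟩
    obtain ⟨b', hb'⟩ : ∃ b', b' = w.count false -
      ((Iw L (p + q + 1) a (p + q + 2)).filter fun i : Fin L => c.getD i false = false).card := ⟨_, rfl⟩
    have hwt : w.count true = p ∨ w.count true = p + 2 := by
      rw [hwd]
      exact hw1
    have h2 : ∀ A B', A + (M' ∩ X).card = w.count true → B' + (M' \ X).card = w.count false →
        ε * dens (bx X (fun i : Fin L => c.getD i false) o) (fun f => P f ∧ ¬ OKs H X ε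
          (((fw uL ++ vx (List.ofFn f) ++ fw uR).drop a).take (p + q + 2))) ≤
            1 - D H X M' A B' := by
      intro A B' h3 h4
      refine le_trans (mul_le_mul_of_nonneg_left ?_ hε.le)
        (dens_ord e01 e02 g02 hX hX' (l := fun i : Fin L => c.getD i false) (o := o)
          (a' := a') (b' := b') hM1 inj hlet hε (by omega) (by omega))
      refine hE.2.1 _ _ ?_
      rintro f _ ⟨_, hbad⟩
      by_contra hcon
      apply hbad
      refine OKs_of g01 hX hX' ?_
      have h5 := win_count f (uL := uL) (uR := uR) (a := a) (k := p + q + 2) hc true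
      have h6 := win_count f (uL := uL) (uR := uR) (a := a) (k := p + q + 2) hc false
      rw [← hwd, huL] at h5 h6
      rw [win_fx f c, huL]
      have h7 : (((fw uL ++ vx (List.ofFn f) ++ fw uR).drop a).take (p + q + 2)).count
          (Sum.inr true) = a' := by omega
      have h8 : (((fw uL ++ vx (List.ofFn f) ++ fw uR).drop a).take (p + q + 2)).count
          (Sum.inr false) = b' := by omega
      rw [h7, h8]
      exact hcon
    have h17 := e17 V H X M' p q B δ η hA hN1 hN2 hN3
    rcases hwt with hwt | hwt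
    · have h3 := h2 (p - (M' ∩ X).card) (q + 2 - (M' \ X).card) (by omega) (by omega)
      have h4 := h17.2 (by omega)
      linarith
    · have h3 := h2 (p + 2 - (M' ∩ X).card) (q - (M' \ X).card) (by omega) (by omega)
      have h4 := h17.1 (by omega)
      linarith

theorem g00 (e01 : StmtE01) (e02 : StmtE02) (e04 : StmtE04) (e17 : StmtE17) (g01 : StmtG01)
    (g02 : StmtG02) : StmtG00 := by
  intro V _ _ H X Z p q B L δ ε τ e₀ η c uL uR o P hA hε hε1 hτ he₀ hc hL huL huR inj hoZ hP hw
    hZ hne hnd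
  classical
  obtain ⟨k, hk⟩ : ∃ k : ℝ, k = ((p + q + 2 : ℕ) : ℝ) := ⟨_, rfl⟩
  have hk2 : 2 ≤ k := by
    rw [hk]
    push_cast
    have h1 : (0 : ℝ) ≤ p := Nat.cast_nonneg p
    have h2 : (0 : ℝ) ≤ q := Nat.cast_nonneg q
    linarith
  have hbig := hA.big
  have hδ := hA.pos
  have hsm := hA.small
  rw [← hk] at hZ hne hnd hbig
  obtain ⟨n, hn⟩ : ∃ n : ℝ, n = (Fintype.card V : ℝ) := ⟨_, rfl⟩
  have hlo := hA.lo
  have hlo' := hA.lo'
  rw [← hn] at hZ hbig hlo hlo'
  have hBk : (1 : ℝ) ≤ ((B + p + q + 2 : ℕ) : ℝ) := by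
    exact_mod_cast (by omega : 1 ≤ B + p + q + 2)
  have hδn : 100 * k ^ 2 ≤ δ * n := by
    refine le_trans ?_ hbig
    have : 0 ≤ 100 * k ^ 2 := by positivity
    nlinarith
  have hn0 : 0 < n := by
    by_contra hcon
    have h1 : δ * n ≤ 0 := mul_nonpos_of_nonneg_of_nonpos hδ.le (not_lt.1 hcon)
    have h2 : 0 < 100 * k ^ 2 := by positivity
    linarith
  have hXn : n ≤ 3 * (X.card : ℝ) := by nlinarith
  have hXn' : n ≤ 3 * ((Xᶜ).card : ℝ) := by nlinarith
  have hX : X.Nonempty := by
    rw [Finset.nonempty_iff_ne_empty]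
    rintro rfl
    rw [Finset.card_empty, Nat.cast_zero] at hXn
    linarith
  have hX' : (Xᶜ).Nonempty := by
    rw [Finset.nonempty_iff_ne_empty]
    intro h
    rw [h, Finset.card_empty, Nat.cast_zero] at hXn'
    linarith
  have hsd : ∀ b, (Fintype.card V : ℝ) ≤ 3 * ((sd X b).card : ℝ) := by
    intro b
    rw [← hn]
    cases b
    · exact hXn'
    · exact hXn
  have hV : 0 < Fintype.card V := by
    have : (0 : ℝ) < (Fintype.card V : ℝ) := by rw [← hn]; exact hn0
    exact_mod_cast this
  have hE := e01 V (Fin L) (bx X (fun i : Fin L => c.getD i false) o) (bx_ne hX hX' _ o)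
  obtain ⟨bad, hbad⟩ : ∃ bad : Fin (L + (p + q + 1)) → (Fin L → V) → Prop,
    bad = fun a f => P f ∧ ¬ OKs H X ε
      (((fw uL ++ vx (List.ofFn f) ++ fw uR).drop a).take (p + q + 2)) := ⟨_, rfl⟩
  have hbd : ∀ a, ε * dens (bx X (fun i : Fin L => c.getD i false) o) (bad a) ≤ 3 * δ + e₀ := by
    intro a
    rw [hbad]
    exact win_dens e01 e02 e17 g01 g02 hA hX hX' hε he₀ hc huL huR inj (by omega)
      (hw a (by omega))
  obtain ⟨deg, hdeg⟩ : ∃ deg : (Fin L → V) → Prop,
    deg = fun f => ¬ (Function.Injective f ∧ ∀ i, o i = none → f i ∉ Z) := ⟨_, rfl⟩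
  have hdg := e04 V (Fin L) X Z (fun i : Fin L => c.getD i false) o hV hsd inj
  rw [← hdeg, ← hn, Fintype.card_fin] at hdg
  have hLk : (L : ℝ) ≤ 3 * k := by
    rw [hk]
    exact_mod_cast hL
  have hL0 : (0 : ℝ) ≤ L := Nat.cast_nonneg L
  have hZ0 : (0 : ℝ) ≤ Z.card := Nat.cast_nonneg _
  have hk0 : 0 < k := by linarith
  have hετ : ε * τ ≤ τ := by nlinarith
  have hdg2 : 3 * ((L : ℝ) ^ 2 + L * Z.card) / n ≤ τ / 10 := by
    rw [div_le_iff₀ hn0]
    have h1 : (L : ℝ) * Z.card ≤ 3 * τ / 100 * n := by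
      calc (L : ℝ) * Z.card ≤ (3 * k) * (τ / (100 * k) * n) :=
            mul_le_mul hLk hZ hZ0 (by positivity)
        _ = 3 * τ / 100 * n := by field_simp
    have h2 : (L : ℝ) ^ 2 ≤ 9 * k ^ 2 := by
      calc (L : ℝ) ^ 2 ≤ (3 * k) ^ 2 := pow_le_pow_left₀ hL0 hLk 2
        _ = 9 * k ^ 2 := by ring
    have h3 : 200 * δ ≤ τ := by
      have : 100 * 2 * δ ≤ 100 * k * δ := by nlinarith
      linarith
    have h4 : 200 * (δ * n) ≤ τ * n := by
      calc 200 * (δ * n) = (200 * δ) * n := by ring
        _ ≤ τ * n := mul_le_mul_of_nonneg_right h3 hn0.le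
    have h5 : 0 < τ * n := by positivity
    linarith
  have hsum : ∑ a : Fin (L + (p + q + 1)),
      dens (bx X (fun i : Fin L => c.getD i false) o) (bad a) ≤ τ / 4 := by
    have h1 : ∀ a ∈ (Finset.univ : Finset (Fin (L + (p + q + 1)))),
        dens (bx X (fun i : Fin L => c.getD i false) o) (bad a) ≤ (3 * δ + e₀) / ε := by
      intro a _
      rw [le_div_iff₀ hε, mul_comm]
      exact hbd a
    refine le_trans (Finset.sum_le_card_nsmul _ _ _ h1) ?_
    rw [Finset.card_univ, Fintype.card_fin, nsmul_eq_mul]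
    have h2 : ((L + (p + q + 1) : ℕ) : ℝ) ≤ 4 * k := by
      have h3 : ((p + q + 1 : ℕ) : ℝ) ≤ k := by
        rw [hk]
        exact_mod_cast (by omega : p + q + 1 ≤ p + q + 2)
      rw [Nat.cast_add]
      linarith
    have h3 : 0 ≤ (3 * δ + e₀) / ε := by positivity
    refine le_trans (mul_le_mul_of_nonneg_right h2 h3) ?_
    rw [← mul_div_assoc, div_le_iff₀ hε]
    have h4 : 4 * k * (3 * δ + e₀) = 12 * (k * δ) + 4 * (k * e₀) := by ring
    have h5 : 100 * (k * δ) ≤ ε * τ := by linarith
    have h6 : 32 * (k * e₀) ≤ ε * τ := by linarith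
    rw [h4]
    have h7 : τ / 4 * ε = ε * τ / 4 := by ring
    rw [h7]
    have h8 : 0 < ε * τ := by positivity
    linarith
  -- the union bound
  obtain ⟨Q, hQ⟩ : ∃ Q : (Fin L → V) → Prop, Q = fun f => P f ∧ ¬ deg f ∧ ∀ a, ¬ bad a f :=
    ⟨_, rfl⟩
  have h1 := hE.2.2.2.1 Q
  have h2 := hE.2.1 (fun f => ¬ Q f) (fun f => ¬ P f ∨ (deg f ∨ ∃ a, bad a f)) (by
    intro f _ h
    rw [hQ] at h
    simp only at h
    by_cases a1 : P f
    · by_cases a2 : deg f
      · exact Or.inr (Or.inl a2)
      · right; right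
        by_contra a3
        exact h ⟨a1, a2, fun a ha => a3 ⟨a, ha⟩⟩
    · exact Or.inl a1)
  have h3 := hE.2.2.1 (fun f => ¬ P f) (fun f => deg f ∨ ∃ a, bad a f)
  have h4 := hE.2.2.1 deg (fun f => ∃ a, bad a f)
  have h5 := hE.2.2.2.2.2 (Fin (L + (p + q + 1))) bad
  have h6 := hE.2.2.2.1 P
  have h7 : 0 < dens (bx X (fun i : Fin L => c.getD i false) o) Q := by
    have h8 : dens (bx X (fun i : Fin L => c.getD i false) o) (fun f => ¬ Q f) ≤
        dens (bx X (fun i : Fin L => c.getD i false) o) (fun f => ¬ P f) +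
          (dens (bx X (fun i : Fin L => c.getD i false) o) deg + ∑ a : Fin (L + (p + q + 1)),
            dens (bx X (fun i : Fin L => c.getD i false) o) (bad a)) := by
      linarith
    linarith
  obtain ⟨f, hf, hQf⟩ := hE.2.2.2.2.1 Q h7
  rw [hQ] at hQf
  obtain ⟨hPf, hdf, hbf⟩ := hQf
  rw [hdeg] at hdf
  obtain ⟨hinj, hfZ⟩ := not_not.1 hdf
  have hfix : ∀ i v, o i = some v → f i = v := by
    intro i v hiv
    have h8 := hf i
    unfold bx at h8
    rw [hiv] at h8
    exact Finset.mem_singleton.1 h8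
  refine ⟨f, hinj, ?_, hfix, ?_, hPf, ?_⟩
  · intro i
    by_cases h8 : o i = none
    · exact hfZ i h8
    · obtain ⟨v, hv⟩ := Option.ne_none_iff_exists'.1 h8
      rw [hfix i v hv]
      exact hoZ i v hv
  · intro i hi
    have h8 := hf i
    unfold bx at h8
    rw [hi] at h8
    simp only [Option.elim_none] at h8
    cases h9 : c.getD i false
    · rw [h9] at h8
      have h10 : f i ∈ Xᶜ := h8
      rw [Finset.mem_compl] at h10
      simp [h10]
    · rw [h9] at h8
      have h10 : f i ∈ X := h8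
      simp [h10]
  · intro s hs hsl
    obtain ⟨a, ha, hsa⟩ := infix_window hs
    rw [hsl] at ha hsa
    have hlen : (fw uL ++ vx (List.ofFn f) ++ fw uR : List (Slot V)).length =
        L + 2 * (p + q + 1) := by
      unfold fw vx
      rw [List.length_append, List.length_append, List.length_map, List.length_map,
        List.length_map, List.length_ofFn, huL, huR]
      omega
    rw [hlen] at ha
    have h8 := hbf ⟨a, by omega⟩
    rw [hbad] at h8
    by_contra hcon
    apply h8
    refine ⟨hPf, ?_⟩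
    rw [← hsa]
    exact hcon

end Pool.Agent.KK.E.H56
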