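import Pool.Agent.KK.StmtsG

/-!
# G_GSL, part 1: windows of the block between free letters
-/

set_option autoImplicit false

namespace Pool.Agent.KK.E.H56

variable {L : ℕ}

/-- positions: the free letters, the block, the free letters -/
def TT (L : ℕ) (c uL uR : List Bool) : List (Option (Fin L) × Bool) :=
  uL.map (fun b => ((none : Option (Fin L)), b)) ++
    (List.ofFn (fun i : Fin L => (some i, c.getD i false)) ++ uR.map (fun b => (none, b)))

/-- the slot of a position -/
def sl {V : Type} (f : Fin L → V) (x : Option (Fin L) × Bool) : Slot V :=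
  x.1.elim (Sum.inr x.2) fun i => Sum.inl (f i)

theorem TT_sl {V : Type} (f : Fin L → V) (c uL uR : List Bool) :
    (TT L c uL uR).map (sl f) = fw uL ++ vx (List.ofFn f) ++ fw uR := by
  unfold TT fw vx
  rw [List.map_append, List.map_append, List.map_map, List.map_map, List.append_assoc]
  congr 1
  congr 1
  rw [List.map_ofFn, List.map_ofFn]
  rfl

theorem TT_snd {c uL uR : List Bool} (hc : c.length = L) :
    (TT L c uL uR).map Prod.snd = uL ++ c ++ uR := by
  unfold TT
  rw [List.map_append, List.map_append, List.map_map, List.map_map, List.append_assoc]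
  have h1 : (List.ofFn (fun i : Fin L => (some i, c.getD i false))).map Prod.snd = c := by
    rw [List.map_ofFn]
    apply List.ext_getElem
    · rw [List.length_ofFn, hc]
    · intro i h1 h2
      rw [List.getElem_ofFn]
      simp only [Function.comp_apply]
      rw [List.getD_eq_getElem _ _ h2]
  rw [h1]
  congr 1
  · exact List.map_id _
  · congr 1
    exact List.map_id _

theorem TT_length (c uL uR : List Bool) : (TT L c uL uR).length = uL.length + (L + uR.length) := by
  unfold TT
  rw [List.length_append, List.length_append, List.length_map, List.length_map, List.length_ofFn]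

theorem TT_nodup (c uL uR : List Bool) : ((TT L c uL uR).filterMap Prod.fst).Nodup := by
  have h1 : (TT L c uL uR).filterMap Prod.fst = List.finRange L := by
    unfold TT
    rw [List.filterMap_append, List.filterMap_append, List.filterMap_map, List.filterMap_map,
      List.ofFn_eq_map, List.filterMap_map]
    have h2 : ∀ u : List Bool, u.filterMap
        (Prod.fst ∘ fun b => ((none : Option (Fin L)), b)) = [] := by
      intro u
      rw [List.filterMap_eq_nil_iff]
      intro b _
      rfl
    rw [h2, h2, List.nil_append, List.append_nil]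
    exact List.filterMap_some
  rw [h1]
  exact List.nodup_finRange L

/-- the window -/
def Tw (L : ℕ) (c uL uR : List Bool) (a k : ℕ) : List (Option (Fin L) × Bool) :=
  ((TT L c uL uR).drop a).take k

theorem Tw_nodup (c uL uR : List Bool) (a k : ℕ) :
    ((Tw L c uL uR a k).filterMap Prod.fst).Nodup := by
  refine List.Nodup.sublist ?_ (TT_nodup c uL uR)
  exact List.Sublist.filterMap _ ((List.take_sublist k _).trans (List.drop_sublist a _))

theorem mem_Tw {c uL uR : List Bool} {a k : ℕ} {x : Option (Fin L) × Bool} :
    x ∈ Tw L c uL uR a k ↔ ∃ j, a ≤ j ∧ j < a + k ∧ (TT L c uL uR)[j]? = some x := by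
  unfold Tw
  rw [List.mem_iff_getElem?]
  constructor
  · rintro ⟨t, ht⟩
    rw [List.getElem?_take] at ht
    split_ifs at ht with h
    rw [List.getElem?_drop] at ht
    exact ⟨a + t, by omega, by omega, ht⟩
  · rintro ⟨j, h1, h2, h3⟩
    refine ⟨j - a, ?_⟩
    rw [List.getElem?_take, if_pos (by omega), List.getElem?_drop]
    rw [show a + (j - a) = j by omega]
    exact h3

theorem TT_get {c uL uR : List Bool} {j : ℕ} {x : Option (Fin L) × Bool}
    (h : (TT L c uL uR)[j]? = some x) :
    ((j < uL.length ∨ uL.length + L ≤ j) ∧ x.1 = none) ∨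
      ∃ i : Fin L, j = (i : ℕ) + uL.length ∧ x = (some i, c.getD i false) := by
  unfold TT at h
  rw [List.getElem?_append] at h
  split_ifs at h with h1
  · rw [List.length_map] at h1
    rw [List.getElem?_map, Option.map_eq_some_iff] at h
    obtain ⟨b, _, hb⟩ := h
    left
    exact ⟨Or.inl h1, by rw [← hb]⟩
  · rw [List.length_map] at h1 h
    rw [List.getElem?_append] at h
    split_ifs at h with h2
    · rw [List.length_ofFn] at h2
      right
      rw [List.getElem?_ofFn, dif_pos h2, Option.some_inj] at h
      exact ⟨⟨j - uL.length, h2⟩, by simp only; omega, h.symm⟩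
    · rw [List.length_ofFn] at h2
      rw [List.getElem?_map, Option.map_eq_some_iff] at h
      obtain ⟨b, _, hb⟩ := h
      left
      exact ⟨Or.inr (by omega), by rw [← hb]⟩

theorem TT_get' (c uL uR : List Bool) (i : Fin L) :
    (TT L c uL uR)[(i : ℕ) + uL.length]? = some (some i, c.getD i false) := by
  unfold TT
  rw [List.getElem?_append_right (by rw [List.length_map]; omega), List.length_map,
    List.getElem?_append_left (by rw [List.length_ofFn]; omega),
    Nat.add_sub_cancel, List.getElem?_ofFn, dif_pos i.2]

theorem mem_Tw_some {c uL uR : List Bool} {a k : ℕ} {i : Fin L} {b : Bool} :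
    (some i, b) ∈ Tw L c uL uR a k ↔
      (a ≤ (i : ℕ) + uL.length ∧ (i : ℕ) + uL.length < a + k) ∧ c.getD i false = b := by
  rw [mem_Tw]
  constructor
  · rintro ⟨j, h1, h2, h3⟩
    rcases TT_get h3 with ⟨_, h⟩ | ⟨i', hj, hi⟩
    · exact absurd h (by simp)
    · rw [Prod.mk.injEq, Option.some_inj] at hi
      obtain ⟨rfl, rfl⟩ := hi
      rw [← hj]
      exact ⟨⟨h1, h2⟩, rfl⟩
  · rintro ⟨⟨h1, h2⟩, rfl⟩
    exact ⟨_, h1, h2, TT_get' c uL uR i⟩

theorem mem_Tw_none {c uL uR : List Bool} {a k : ℕ} {b : Bool}
    (h : (none, b) ∈ Tw L c uL uR a k) : a < uL.length ∨ uL.length + L < a + k := by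
  rw [mem_Tw] at h
  obtain ⟨j, h1, h2, h3⟩ := h
  rcases TT_get h3 with ⟨h | h, _⟩ | ⟨i', hj, hi⟩
  · left; omega
  · right; omega
  · exact absurd (congrArg Prod.fst hi) (by simp)

theorem count_eq {V : Type} [DecidableEq V] (f : Fin L → V) (b : Bool)
    (T : List (Option (Fin L) × Bool)) (hT : (T.filterMap Prod.fst).Nodup) :
    (T.map Prod.snd).count b = (T.map (sl f)).count (Sum.inr b) +
      (Finset.univ.filter fun i : Fin L => (some i, b) ∈ T).card := by
  classical
  induction T with
  | nil => simp
  | cons x T ih =>
    obtain ⟨o, b'⟩ := x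
    rw [List.map_cons, List.map_cons, List.count_cons, List.count_cons]
    cases o with
    | none =>
      rw [List.filterMap_cons_none (by rfl)] at hT
      rw [ih hT]
      have h1 : (Finset.univ.filter fun i : Fin L => (some i, b) ∈ (none, b') :: T) =
          (Finset.univ.filter fun i : Fin L => (some i, b) ∈ T) := by
        apply Finset.filter_congr
        intro i _
        rw [List.mem_cons]
        simp
      rw [h1]
      have h2 : (sl f ((none : Option (Fin L)), b') == Sum.inr b) = (b' == b) := rfl
      rw [h2]
      simp only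
      omega
    | some i =>
      rw [List.filterMap_cons_some (b := i) (by rfl), List.nodup_cons] at hT
      rw [ih hT.2]
      have h2 : (sl f (some i, b') == Sum.inr b) = false := rfl
      rw [h2]
      have hi : ∀ b'', (some i, b'') ∉ T := by
        intro b'' h
        apply hT.1
        rw [List.mem_filterMap]
        exact ⟨_, h, rfl⟩
      by_cases hb : b' = b
      · subst hb
        have h1 : (Finset.univ.filter fun j : Fin L => (some j, b') ∈ (some i, b') :: T) =
            insert i (Finset.univ.filter fun j : Fin L => (some j, b') ∈ T) := by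
          ext j
          rw [Finset.mem_insert, Finset.mem_filter, Finset.mem_filter, List.mem_cons]
          simp
        rw [h1, Finset.card_insert_of_notMem]
        · simp
          omega
        · rw [Finset.mem_filter]
          exact fun h => hi _ h.2
      · have h1 : (Finset.univ.filter fun j : Fin L => (some j, b) ∈ (some i, b') :: T) =
            (Finset.univ.filter fun j : Fin L => (some j, b) ∈ T) := by
          apply Finset.filter_congr
          intro j _
          rw [List.mem_cons]
          constructor
          · rintro (h | h)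
            · exact absurd (congrArg Prod.snd h).symm hb
            · exact h
          · exact fun h => Or.inr h
        rw [h1]
        simp [hb]

theorem fx_eq {V : Type} [DecidableEq V] (f : Fin L → V) (T : List (Option (Fin L) × Bool)) (v : V) :
    v ∈ (fx (T.map (sl f))).toFinset ↔ ∃ (i : Fin L) (b : Bool), (some i, b) ∈ T ∧ f i = v := by
  unfold fx
  rw [List.mem_toFinset, List.mem_filterMap]
  constructor
  · rintro ⟨s, hs, hv⟩
    rw [List.mem_map] at hs
    obtain ⟨⟨o, b⟩, hx, rfl⟩ := hs
    cases o with
    | none => exact absurd hv (by simp [sl])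
    | some i =>
      refine ⟨i, b, hx, ?_⟩
      simpa [sl] using hv
  · rintro ⟨i, b, h, rfl⟩
    exact ⟨Sum.inl (f i), List.mem_map.2 ⟨_, h, rfl⟩, rfl⟩

theorem infix_window {α : Type} {s l : List α} (h : s <:+: l) :
    ∃ a, a + s.length ≤ l.length ∧ s = (l.drop a).take s.length := by
  obtain ⟨u, v, rfl⟩ := h
  refine ⟨u.length, ?_, ?_⟩
  · simp only [List.length_append]
    omega
  · rw [List.append_assoc, List.drop_left, List.take_left]

end Pool.Agent.KK.E.H56
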