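import Pool.Agent.Helper56_KK.GSL1

/-!
# G_GSL, part 2: the density of the bad events of an ordinary window
-/

set_option autoImplicit false

namespace Pool.Agent.KK.E.H56

variable {V : Type} [Fintype V] [DecidableEq V] {L : ℕ}

theorem sd_ne {X : Finset V} (hX : X.Nonempty) (hX' : (Xᶜ).Nonempty) (b : Bool) :
    (sd X b).Nonempty := by
  cases b
  · exact hX'
  · exact hX

theorem bx_ne {X : Finset V} (hX : X.Nonempty) (hX' : (Xᶜ).Nonempty) {ι : Type} (l : ι → Bool)
    (o : ι → Option V) (i : ι) : (bx X l o i).Nonempty := by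
  unfold bx
  cases o i with
  | none => exact sd_ne hX hX' _
  | some v => exact Finset.singleton_nonempty v

theorem card_fixed {X M' : Finset V} {l : Fin L → Bool} {o : Fin L → Option V}
    {I : Finset (Fin L)} (hM' : ∀ v, v ∈ M' ↔ ∃ i ∈ I, o i = some v)
    (inj : ∀ i i' v, o i = some v → o i' = some v → i = i')
    (hlet : ∀ i ∈ I, ∀ v, o i = some v → (v ∈ X ↔ l i = true)) (b : Bool) :
    (I.filter fun i => l i = b ∧ ¬ o i = none).card =
      (M'.filter fun v => decide (v ∈ X) = b).card := by
  refine Finset.card_bij (fun i hi => (o i).get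
    (Option.isSome_iff_ne_none.2 (Finset.mem_filter.1 hi).2.2)) ?_ ?_ ?_
  · intro i hi
    have h1 := Finset.mem_filter.1 hi
    obtain ⟨v, hv⟩ := Option.ne_none_iff_exists'.1 h1.2.2
    have h2 : (o i).get (Option.isSome_iff_ne_none.2 h1.2.2) = v := by
      simp only [hv, Option.get_some]
    rw [h2, Finset.mem_filter]
    refine ⟨(hM' v).2 ⟨i, h1.1, hv⟩, ?_⟩
    have h3 := hlet i h1.1 v hv
    rw [h1.2.1] at h3
    cases b
    · rw [decide_eq_false_iff_not]
      intro h4
      exact absurd (h3.1 h4) (by decide)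
    · rw [decide_eq_true_iff]
      exact h3.2 rfl
  · intro i hi i' hi' h
    have h1 := Finset.mem_filter.1 hi
    have h1' := Finset.mem_filter.1 hi'
    obtain ⟨v, hv⟩ := Option.ne_none_iff_exists'.1 h1.2.2
    obtain ⟨v', hv'⟩ := Option.ne_none_iff_exists'.1 h1'.2.2
    have h2 : (o i).get (Option.isSome_iff_ne_none.2 h1.2.2) = v := by
      simp only [hv, Option.get_some]
    have h2' : (o i').get (Option.isSome_iff_ne_none.2 h1'.2.2) = v' := by
      simp only [hv', Option.get_some]
    rw [h2, h2'] at h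
    rw [← h] at hv'
    exact inj i i' v hv hv'
  · intro v hv
    have h1 := Finset.mem_filter.1 hv
    obtain ⟨i, hi, hiv⟩ := (hM' v).1 h1.1
    have h2 : ¬ o i = none := by rw [hiv]; simp
    have h3 : l i = b := by
      have h4 := hlet i hi v hiv
      have h5 := h1.2
      cases b
      · rw [decide_eq_false_iff_not] at h5
        cases h6 : l i
        · rfl
        · exact absurd (h4.2 h6) h5
      · rw [decide_eq_true_iff] at h5
        exact h4.1 h5
    refine ⟨i, Finset.mem_filter.2 ⟨hi, h3, h2⟩, ?_⟩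
    simp only [hiv, Option.get_some]

theorem card_free {l : Fin L → Bool} {o : Fin L → Option V} {I : Finset (Fin L)} (b : Bool) :
    (Finset.univ.filter fun j : {i : Fin L // i ∈ I ∧ o i = none} => l j = b).card =
      (I.filter fun i => l i = b ∧ o i = none).card := by
  rw [← Finset.card_map ⟨Subtype.val, Subtype.val_injective⟩]
  congr 1
  ext i
  rw [Finset.mem_map, Finset.mem_filter]
  constructor
  · rintro ⟨j, hj, rfl⟩
    exact ⟨j.2.1, (Finset.mem_filter.1 hj).2, j.2.2⟩
  · rintro ⟨h1, h2, h3⟩
    exact ⟨⟨i, h1, h3⟩, Finset.mem_filter.2 ⟨Finset.mem_univ _, h2⟩, rfl⟩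

theorem card_split {l : Fin L → Bool} {o : Fin L → Option V} {I : Finset (Fin L)} (b : Bool) :
    (I.filter fun i => l i = b).card = (I.filter fun i => l i = b ∧ o i = none).card +
      (I.filter fun i => l i = b ∧ ¬ o i = none).card := by
  rw [← Finset.filter_filter, ← Finset.filter_filter]
  exact (Finset.card_filter_add_card_filter_not (s := I.filter fun i => l i = b)
    (fun i => o i = none)).symm

theorem dens_ord (e01 : StmtE01) (e02 : StmtE02) (g02 : StmtG02) {H : Finset (Finset V)}
    {X M' : Finset V} (hX : X.Nonempty) (hX' : (Xᶜ).Nonempty) {l : Fin L → Bool}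
    {o : Fin L → Option V} {I : Finset (Fin L)} (hM' : ∀ v, v ∈ M' ↔ ∃ i ∈ I, o i = some v)
    (inj : ∀ i i' v, o i = some v → o i' = some v → i = i')
    (hlet : ∀ i ∈ I, ∀ v, o i = some v → (v ∈ X ↔ l i = true)) {a' b' A B : ℕ} {ε : ℝ}
    (hε : 0 < ε) (hA : A + (M' ∩ X).card = a' + (I.filter fun i => l i = true).card)
    (hB : B + (M' \ X).card = b' + (I.filter fun i => l i = false).card) :
    ε * dens (bx X l o) (fun f => D H X (I.image f) a' b' < 1 - ε) ≤ 1 - D H X M' A B := by
  classical
  have hXc : M' ∩ X = M'.filter fun v => decide (v ∈ X) = true := by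
    ext v
    rw [Finset.mem_inter, Finset.mem_filter, decide_eq_true_iff]
  have hXd : M' \ X = M'.filter fun v => decide (v ∈ X) = false := by
    ext v
    rw [Finset.mem_sdiff, Finset.mem_filter, decide_eq_false_iff_not]
  rw [hXc, ← card_fixed hM' inj hlet true, card_split (o := o) true] at hA
  rw [hXd, ← card_fixed hM' inj hlet false, card_split (o := o) false] at hB
  have hA2 : A = a' + (Finset.univ.filter
      fun j : {i : Fin L // i ∈ I ∧ o i = none} => l j = true).card := by
    rw [card_free]; omega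
  have hB2 : B = b' + (Finset.univ.filter
      fun j : {i : Fin L // i ∈ I ∧ o i = none} => l j = false).card := by
    rw [card_free]; omega
  have h1 := g02 V {i : Fin L // i ∈ I ∧ o i = none} H X M' (fun j => l j) a' b' _ _ ε hX hX' hε
    rfl rfl
  rw [← hA2, ← hB2] at h1
  refine le_trans (mul_le_mul_of_nonneg_left ?_ hε.le) h1
  have h2 := e02 V (Fin L) {i : Fin L // i ∈ I ∧ o i = none} (bx X l o) Subtype.val
    (bx_ne hX hX' l o) Subtype.val_injective
    (fun z => D H X (M' ∪ Finset.univ.image z) a' b' < 1 - ε)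
  have h3 : (bx X l o) ∘ (Subtype.val : {i : Fin L // i ∈ I ∧ o i = none} → Fin L) =
      fun j : {i : Fin L // i ∈ I ∧ o i = none} => sd X (l (j : Fin L)) := by
    funext j
    simp only [Function.comp_apply, bx, j.2.2, Option.elim_none]
  rw [h3] at h2
  rw [← h2]
  refine (e01 V (Fin L) (bx X l o) (bx_ne hX hX' l o)).2.1 _ _ ?_
  intro f hf h4
  have h5 : M' ∪ Finset.univ.image (f ∘ (Subtype.val : {i : Fin L // i ∈ I ∧ o i = none} → Fin L)) =
      I.image f := by
    ext v
    rw [Finset.mem_union, Finset.mem_image, Finset.mem_image, hM']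
    constructor
    · rintro (⟨i, hi, hiv⟩ | ⟨j, _, hj⟩)
      · refine ⟨i, hi, ?_⟩
        have h6 := hf i
        unfold bx at h6
        rw [hiv] at h6
        exact Finset.mem_singleton.1 h6
      · exact ⟨j, j.2.1, hj⟩
    · rintro ⟨i, hi, rfl⟩
      by_cases h6 : o i = none
      · exact Or.inr ⟨⟨i, hi, h6⟩, Finset.mem_univ _, rfl⟩
      · obtain ⟨v, hv⟩ := Option.ne_none_iff_exists'.1 h6
        refine Or.inl ⟨i, hi, ?_⟩
        have h7 := hf i
        unfold bx at h7
        rw [hv] at h7
        rw [hv, Finset.mem_singleton.1 h7]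
  rw [h5]
  exact h4

end Pool.Agent.KK.E.H56
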